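import Pool.Agent.Helper89.KS.Goals
import Pool.Agent.Helper75.KS.GoalsB

/-!
# The Kahn-Saks conjecture: adaptor between the two forms of SYS
-/

namespace Pool.Agent.Helper89.KS

open Finset MeasureTheory Filter Topology Pool.Agent.Helper89.GP
open Pool.Agent.Helper44.KS (KSys Filling)

theorem half_of {n : ℕ} {c : ℝ} {R : Fin n → Fin n → Prop} {x : Fin n} (hne : (LX R).Nonempty)
    (h1 : 1 ≤ Pool.Agent.Helper75.KS.dev R x)
    (hb : ∀ u v, u ≠ v → c < |(Pr R fun σ => po σ u < po σ v) - 1 / 2|) : c < 1 / 2 := by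
  classical
  by_cases hx : ∃ y, y ≠ x
  · obtain ⟨y, hy⟩ := hx
    have h2 := hb y x hy
    have h3 : 0 ≤ Pr R fun σ => po σ y < po σ x := Pr_nonneg _
    have h4 : (Pr R fun σ => po σ y < po σ x) ≤ 1 := Pr_le_one _
    refine lt_of_lt_of_le h2 ?_
    rw [abs_le]
    constructor <;> linarith
  · exfalso
    push Not at hx
    have h5 : n = 1 := by
      have h6 : Fintype.card (Fin n) ≤ 1 := Fintype.card_le_one_iff.2 fun a b => by rw [hx a, hx b]
      rw [Fintype.card_fin] at h6
      have := x.pos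
      omega
    subst h5
    have h7 : Pool.Agent.Helper75.KS.dev R x = 0 := by
      unfold Pool.Agent.Helper75.KS.dev hh Ex
      have h8 : ∀ σ : Equiv.Perm (Fin 1), (po σ x : ℝ) = 0 := by
        intro σ
        have : po σ x = 0 := by unfold po; omega
        rw [this]; simp
      simp [h8]
    linarith

/-- From the posets in standard position of Pool/Agent/Helper75/KS/GoalsB.lean. -/
theorem sys_ad (hpad : Pool.Agent.Helper75.KS.PadStmt) (hsys : SysStmt) :
    Pool.Agent.Helper75.KS.SysStmt := by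
  intro c n R x hc hS hT
  refine hsys c hc ?_
  intro S0
  have h1 : ∀ᶠ N in atTop, S0 ≤ Pool.Agent.Helper75.KS.dev (R N) (x N) :=
    hT.eventually (eventually_ge_atTop S0)
  obtain ⟨N, hN⟩ := h1.exists
  have hs := hS N
  obtain ⟨n', R', x', hs', hd⟩ := hpad (n N) (R N) (x N) c
    (Pool.Agent.Helper75.KS.dev (R N) (x N) + 1) (half_of hs.ne hs.one hs.nb) hs.ne hs.mx hs.one hs.nb
  have hdv : dv R' x' = Pool.Agent.Helper75.KS.dev R' x' := rfl
  have hone := hs'.one
  refine ⟨n', R', x', hs'.ne, ?_, hs'.mx, ?_, hs'.nb⟩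
  · rw [hdv, hd]; exact hN
  · intro σ hσ
    have h2 := hs'.lo σ hσ
    have h3 := hs'.hi σ hσ
    rw [← hd] at h2 h3
    rw [hdv]
    constructor
    · nlinarith
    · nlinarith

end Pool.Agent.Helper89.KS
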