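import Pool.Agent.Helper89.KS.Goals
import Pool.Agent.Helper96.GP.PEEL
import Pool.Agent.Helper12.GP.MST
import Pool.Agent.Helper24.KS.EXF

/-!
# KS: the increments in the chamber of the identity
-/

namespace Pool.Agent.Helper89.KS

open MeasureTheory Finset Pool.Agent.Helper89.GP
open scoped ENNReal

theorem ps_cons {n : ℕ} (r : ℝ) (e : Fin n → ℝ) :
    ps (Fin.cons r e : Fin (n + 1) → ℝ) = Fin.cons r fun i => r + ps e i := by
  ext i
  unfold ps
  rw [Fin.sum_univ_succ]
  refine Fin.cases ?_ (fun j => ?_) i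
  · simp
  · simp

theorem ps_meas {n : ℕ} : Measurable (ps : (Fin n → ℝ) → Fin n → ℝ) := by
  refine measurable_pi_lambda _ fun i => ?_
  unfold ps
  refine Finset.measurable_sum _ fun j _ => ?_
  by_cases h : j ≤ i
  · simp only [h, if_true]; exact measurable_pi_apply j
  · simp only [h, if_false]; exact measurable_const

theorem En_succ (n : ℕ) (F : (Fin (n + 1) → ℝ) → ℝ≥0∞) (hF : Measurable F) :
    ∫⁻ e, F e ∂En (n + 1) = ∫⁻ r, ∫⁻ e, F (Fin.cons r e : Fin (n + 1) → ℝ) ∂En n ∂ex1 := by
  have hP : IsProbabilityMeasure ex1 := Pool.Agent.Helper24.KS.exf.1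
  have e := measurePreserving_piFinSuccAbove (fun _ : Fin (n + 1) => ex1) 0
  have h1 : ∫⁻ x, F x ∂En (n + 1) = ∫⁻ p : ℝ × (Fin n → ℝ),
      F ((MeasurableEquiv.piFinSuccAbove (fun _ : Fin (n + 1) => ℝ) 0).symm p) ∂(ex1.prod (En n)) := by
    exact (e.symm.lintegral_comp_emb (MeasurableEquiv.measurableEmbedding _) F).symm
  have h2 : ∀ p : ℝ × (Fin n → ℝ),
      (MeasurableEquiv.piFinSuccAbove (fun _ : Fin (n + 1) => ℝ) 0).symm p =
        (Fin.cons p.1 p.2 : Fin (n + 1) → ℝ) := by
    intro p
    ext i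
    refine Fin.cases ?_ (fun j => ?_) i
    · simp [MeasurableEquiv.piFinSuccAbove, Fin.insertNthEquiv]
    · simp [MeasurableEquiv.piFinSuccAbove, Fin.insertNthEquiv]
  have hPn : IsProbabilityMeasure (En n) := by unfold En; infer_instance
  rw [h1]
  refine (lintegral_prod (fun p : ℝ × (Fin n → ℝ) =>
      F ((MeasurableEquiv.piFinSuccAbove (fun _ : Fin (n + 1) => ℝ) 0).symm p))
      (hF.comp (MeasurableEquiv.measurable _)).aemeasurable).trans ?_
  simp_rw [h2]

theorem lwa : LwaStmt := by
  intro n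
  induction n with
  | zero =>
    intro Φ hΦ
    have h : Ch (1 : Equiv.Perm (Fin 0)) = Set.univ := by
      unfold Ch
      ext x
      simp only [Set.mem_ofPred_eq, Set.mem_univ, iff_true]
      exact ⟨fun a => a.elim0, fun a => a.elim0⟩
    rw [h, Measure.restrict_univ, lintegral_unique, lintegral_unique]
    have h1 : (volume : Measure (Fin 0 → ℝ)) Set.univ = 1 := by
      rw [volume_pi, Measure.pi_empty_univ]
    have h2 : (En 0) Set.univ = 1 := by
      unfold En; rw [Measure.pi_empty_univ]
    rw [h1, h2, Real.iSup_of_isEmpty]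
    have h3 : ∀ z : Fin 0 → ℝ, ps z = z := fun z => Subsingleton.elim _ _
    simp [h3]
  | succ n ih =>
    intro Φ hΦ
    have hw : Measurable fun x : Fin (n + 1) → ℝ => ENNReal.ofReal (Real.exp (-⨆ a, x a)) := by
      refine ENNReal.measurable_ofReal.comp (Real.measurable_exp.comp (Measurable.neg ?_))
      exact Measurable.iSup fun i => measurable_pi_apply i
    have hcons : ∀ r : ℝ, Measurable fun y : Fin n → ℝ =>
        (Fin.cons r fun i => r + y i : Fin (n + 1) → ℝ) := by
      intro r
      refine measurable_pi_lambda _ fun i => ?_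
      refine Fin.cases ?_ (fun j => ?_) i
      · simp only [Fin.cons_zero]; exact measurable_const
      · simp only [Fin.cons_succ]; exact measurable_const.add (measurable_pi_apply j)
    refine (Pool.Agent.Helper96.GP.peel n (fun x => Φ x * ENNReal.ofReal (Real.exp (-⨆ a, x a)))
      (hΦ.mul hw)).trans ?_
    rw [En_succ n (fun e => Φ (ps e)) (hΦ.comp ps_meas)]
    have h1 : ∀ r ∈ Set.Ioi (0 : ℝ), ∫⁻ y in Ch (1 : Equiv.Perm (Fin n)),
        (Φ (Fin.cons r fun i => r + y i : Fin (n + 1) → ℝ) * ENNReal.ofReal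
          (Real.exp (-⨆ a, (Fin.cons r fun i => r + y i : Fin (n + 1) → ℝ) a))) =
        ENNReal.ofReal (Real.exp (-r)) *
          ∫⁻ e, Φ (Fin.cons r fun i => r + ps e i : Fin (n + 1) → ℝ) ∂En n := by
      intro r hr
      rw [← ih (fun y => Φ (Fin.cons r fun i => r + y i : Fin (n + 1) → ℝ)) (hΦ.comp (hcons r)),
        ← lintegral_const_mul' _ _ ENNReal.ofReal_ne_top]
      refine setLIntegral_congr_fun (Pool.Agent.Helper12.GP.measurableSet_Ch _) fun y hy => ?_
      change Φ (Fin.cons r fun i => r + y i : Fin (n + 1) → ℝ) * ENNReal.ofReal (Real.exp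
          (-⨆ a, (Fin.cons r fun i => r + y i : Fin (n + 1) → ℝ) a)) = _
      rw [Pool.Agent.Helper12.GP.iSup_cons hr hy.1, neg_add, Real.exp_add,
        ENNReal.ofReal_mul (Real.exp_pos _).le]
      ring
    refine (setLIntegral_congr_fun measurableSet_Ioi h1).trans ?_
    unfold ex1
    rw [lintegral_withDensity_eq_lintegral_mul₀ (by fun_prop)]
    · refine lintegral_congr fun r => ?_
      simp only [Pi.mul_apply]
      congr 1
      refine lintegral_congr fun e => ?_
      rw [ps_cons]
    · have hPn : IsProbabilityMeasure (En n) := by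
        have hP : IsProbabilityMeasure ex1 := Pool.Agent.Helper24.KS.exf.1
        unfold En; infer_instance
      refine (Measurable.lintegral_prod_right' (f := fun p : ℝ × (Fin n → ℝ) =>
        Φ (ps (Fin.cons p.1 p.2 : Fin (n + 1) → ℝ))) ?_).aemeasurable
      refine hΦ.comp (ps_meas.comp ?_)
      refine measurable_pi_lambda _ fun i => ?_
      refine Fin.cases ?_ (fun j => ?_) i
      · simp only [Fin.cons_zero]; exact measurable_fst
      · simp only [Fin.cons_succ]; exact (measurable_pi_apply j).comp measurable_snd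

end Pool.Agent.Helper89.KS
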