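import Pool.Agent.Helper89.KS.AdSys
import Pool.Agent.Helper24.KS.EXF
import Pool.Agent.Helper74.KS.ENF
import Pool.Agent.Helper60.KS.PSF
import Pool.Agent.Helper49.KS.MUF
import Pool.Agent.Helper83.KS.ORD
import Pool.Agent.Helper40.KS.MOM
import Pool.Agent.Helper89.KS.LWA
import Pool.Agent.Helper86.KS.LWB
import Pool.Agent.Helper22.KS.LCM
import Pool.Agent.Helper79.KS.FLA
import Pool.Agent.Helper88.KS.FLB
import Pool.Agent.Helper48.KS.CNX
import Pool.Agent.Helper19.KS.ENE
import Pool.Agent.Helper2.KS.KSY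
import Pool.Agent.Helper59.KS.SYS

/-!
# The Kahn-Saks conjecture: assembly of the poset side
-/

namespace Pool.Agent.Helper89.KS

theorem all_enf : EnfStmt := Pool.Agent.Helper74.KS.enf Pool.Agent.Helper24.KS.exf

theorem all_psf : PsfStmt := Pool.Agent.Helper60.KS.psf all_enf

theorem all_muf : MufStmt := Pool.Agent.Helper49.KS.muf all_enf

theorem all_ord : OrdStmt := Pool.Agent.Helper83.KS.ord all_enf all_psf all_muf

theorem all_mom : MomStmt := Pool.Agent.Helper40.KS.mom all_psf all_muf

theorem all_lcm : LcmStmt :=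
  Pool.Agent.Helper22.KS.lcm (Pool.Agent.Helper86.KS.lwb lwa)

theorem all_flb : FlbStmt :=
  Pool.Agent.Helper88.KS.flb all_muf (Pool.Agent.Helper79.KS.fla all_enf all_psf)

theorem all_enx : EnxStmt := Pool.Agent.Helper19.KS.ene

theorem all_ksy : KsyStmt :=
  Pool.Agent.Helper2.KS.ksy all_muf all_ord all_mom all_lcm Pool.Agent.Helper48.KS.cnx all_enx

/-- The sequence of systems. -/
theorem all_sys : SysStmt := Pool.Agent.Helper59.KS.sys all_ksy all_flb

end Pool.Agent.Helper89.KS
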