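import Pool.Agent.Helper89.GP.GoalsA
import Pool.Agent.Helper44.KS.Defs

/-!
# The Kahn-Saks conjecture: the exponential model

Posets are relations `R` on `Fin n` as in Pool/Agent/Helper89/GP/Defs.lean: `LX R` is the set of linear
extensions `σ`, `po σ a` the position of `a` (from `0`), `Ex R`, `Pr R` expectation and probability,
`hh R a` the expected position. The exponential model is the random configuration `v : Fin n → ℝ`,
`v a = e 0 + ... + e (σ a)`, where `σ` is uniform on `LX R` and the increments `e i` are independent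
exponential with mean one and independent of `σ`.
-/

namespace Pool.Agent.Helper89.KS

open Finset MeasureTheory Pool.Agent.Helper89.GP
open scoped ENNReal

noncomputable section

/-- The exponential law with mean one. -/
def ex1 : Measure ℝ :=
  (volume.restrict (Set.Ioi (0 : ℝ))).withDensity fun r => ENNReal.ofReal (Real.exp (-r))

/-- The law of the increments. -/
def En (n : ℕ) : Measure (Fin n → ℝ) := Measure.pi fun _ => ex1

/-- The partial sums. -/
def ps {n : ℕ} (e : Fin n → ℝ) (i : Fin n) : ℝ := ∑ j, if j ≤ i then e j else 0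

/-- The configuration with increments `e` and order `σ`. -/
def cf {n : ℕ} (σ : Equiv.Perm (Fin n)) (e : Fin n → ℝ) (a : Fin n) : ℝ := ps e (σ a)

/-- The exponential model. -/
def mu {n : ℕ} (R : Fin n → Fin n → Prop) : Measure (Fin n → ℝ) :=
  ((LX R).card : ℝ≥0∞)⁻¹ • ∑ σ ∈ LX R, (En n).map (cf σ)

/-- The mean deviation of the position of `p`. -/
def dv {n : ℕ} (R : Fin n → Fin n → Prop) (p : Fin n) : ℝ :=
  Ex R fun σ => |(po σ p : ℝ) - hh R p|

/-- The order cone. -/
def Cn {n : ℕ} (R : Fin n → Fin n → Prop) : Set (Fin n → ℝ) :=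
  {x | (∀ a, 0 < x a) ∧ ∀ a b, R a b → x a < x b}

/-- The normalization. -/
def nm {n : ℕ} (x : Fin n) (S : ℝ) (v : Fin n → ℝ) (p : Fin n) : ℝ := (v p - v x) / S

/-- Adding one relation. -/
def ad {n : ℕ} (R : Fin n → Fin n → Prop) (u w : Fin n) : Fin n → Fin n → Prop :=
  fun a b => R a b ∨ (a = u ∧ b = w)

end

end Pool.Agent.Helper89.KS
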