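import Pool.Agent.Helper89.KS.Defs

/-!
# The Kahn-Saks conjecture: goals on the exponential model

Every goal may be used as a hypothesis where the docstring says so.
-/

namespace Pool.Agent.Helper89.KS

open Finset MeasureTheory Filter Topology Pool.Agent.Helper89.GP
open Pool.Agent.Helper44.KS (KSys Filling)
open scoped ENNReal

noncomputable section

/-! ### The increments -/

/-- EXF. The exponential law. Proof: `∫ r > 0, exp (-r) = 1`, `∫ r > 0, r exp (-r) = 1`,
`∫ r > 0, r² exp (-r) = 2` (`integral_exp_neg_Ioi_zero`, `Real.Gamma_eq_integral`,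
`Real.GammaIntegral_convergent`); integrals and integrability with respect to a measure with density:
`integral_withDensity_eq_integral_toReal_smul`, `integrable_withDensity_iff`. -/
def ExfStmt : Prop := IsProbabilityMeasure ex1 ∧ (∀ᵐ r ∂ex1, 0 < r) ∧
  Integrable (fun r : ℝ => r) ex1 ∧ ∫ r, r ∂ex1 = 1 ∧
  Integrable (fun r : ℝ => (r - 1) ^ 2) ex1 ∧ ∫ r, (r - 1) ^ 2 ∂ex1 = 1

/-- ENF. The increments. Proof (may assume EXF): `Measure.pi` of probability measures is one; the
marginals are `ex1` (`measurePreserving_eval`), so `0 < e j` almost surely (finite intersection),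
`e j` is integrable with mean `1`, `(e j - 1) ^ 2` is integrable with mean `1`. The products
`(e i - 1) (e j - 1)`, `i ≠ j`, are integrable with mean `0` (independence `iIndepFun_pi`,
`IndepFun.integral_mul_eq_mul_integral`). Expand the square. (Or: variance of a sum of independent
variables, `IndepFun.variance_sum`.) -/
def EnfStmt : Prop := ∀ n : ℕ, IsProbabilityMeasure (En n) ∧ (∀ᵐ e ∂En n, ∀ j, 0 < e j) ∧
  (∀ j, Integrable (fun e : Fin n → ℝ => e j) (En n) ∧ ∫ e, e j ∂En n = 1) ∧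
  ∀ J : Finset (Fin n), Integrable (fun e : Fin n → ℝ => (∑ j ∈ J, (e j - 1)) ^ 2) (En n) ∧
    ∫ e, (∑ j ∈ J, (e j - 1)) ^ 2 ∂En n = J.card

/-- PSF. The partial sums. Proof (may assume ENF): for `i ≤ j` the difference
`ps e j - ps e i - (j - i)` is the sum of `e l - 1` over `i < l ≤ j` (and `ps e i - (i + 1)` the sum
over `l ≤ i`), so its square has mean `j - i`; the case `j < i` is symmetric. `E |X| ≤ sqrt (E X²)`.
`ps e` is strictly increasing if all `e j` are positive. -/
def PsfStmt : Prop := ∀ (n : ℕ) (i j : Fin n),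
  (Integrable (fun e : Fin n → ℝ => ps e i) (En n) ∧ ∫ e, ps e i ∂En n = (i : ℕ) + 1) ∧
  (Integrable (fun e : Fin n → ℝ => (ps e j - ps e i - ((j : ℕ) - (i : ℕ) : ℝ)) ^ 2) (En n) ∧
    ∫ e, (ps e j - ps e i - ((j : ℕ) - (i : ℕ) : ℝ)) ^ 2 ∂En n = |((j : ℕ) - (i : ℕ) : ℝ)|) ∧
  ∫ e, |ps e j - ps e i - ((j : ℕ) - (i : ℕ) : ℝ)| ∂En n ≤ √|((j : ℕ) - (i : ℕ) : ℝ)| ∧
  ∀ e : Fin n → ℝ, (∀ l, 0 < e l) → i < j → ps e i < ps e j

/-! ### The model -/

/-- MUF. The model is a mixture. Proof (may assume ENF): `cf σ` is measurable (finite sums of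
coordinates, `measurable_pi_lambda`); the integral with respect to a scalar multiple of a finite sum of
measures (`integral_smul_measure`, `integral_finset_sum_measure`, `integral_map`,
`Integrable.smul_measure`, `integrable_finset_sum_measure`), `Ex R f = (∑ σ ∈ LX R, f σ) / #(LX R)`. -/
def MufStmt : Prop := ∀ (n : ℕ) (R : Fin n → Fin n → Prop), (LX R).Nonempty →
  IsProbabilityMeasure (mu R) ∧
  (∀ F : (Fin n → ℝ) → ℝ, Measurable F →
    (∀ σ ∈ LX R, Integrable (fun e => F (cf σ e)) (En n)) →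
    Integrable F (mu R) ∧ ∫ v, F v ∂mu R = Ex R fun σ => ∫ e, F (cf σ e) ∂En n) ∧
  (∀ A : Set (Fin n → ℝ), MeasurableSet A →
    (mu R).real A = Ex R fun σ => (En n).real {e | cf σ e ∈ A}) ∧
  ∀ p : (Fin n → ℝ) → Prop, MeasurableSet {v | p v} →
    (∀ σ ∈ LX R, ∀ᵐ e ∂En n, p (cf σ e)) → ∀ᵐ v ∂mu R, p v

/-- ORD. The order type of the model. Proof (may assume ENF, PSF, MUF): almost surely all `e l` are
positive, then `cf σ e p < cf σ e q` iff `σ p < σ q` (`ps e` is strictly increasing) iff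
`po σ p < po σ q`. Apply MUF; `Pr R p = Ex R (indicator)`. -/
def OrdStmt : Prop := ∀ (n : ℕ) (R : Fin n → Fin n → Prop), (LX R).Nonempty →
  (∀ᵐ v ∂mu R, ∀ p q, p ≠ q → v p ≠ v q) ∧
  (∀ p q, (mu R).real {v | v p < v q} = Pr R fun σ => po σ p < po σ q) ∧
  ∀ p q, R p q → ∀ᵐ v ∂mu R, v p < v q

/-- CND. Conditioning on `v u < v w` gives the model of the poset with the additional relation. Proof (may
assume ENF, PSF, MUF): `LX (ad R u w)` is the set of the `σ ∈ LX R` with `σ u < σ w`. By MUF the left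
side is the sum over `σ ∈ LX R` of `(En n).real {e | cf σ e ∈ A, cf σ e u < cf σ e w}` divided by
`#(LX R)`; the terms with `σ w ≤ σ u` vanish, in the others the second condition holds almost surely. -/
def CndStmt : Prop := ∀ (n : ℕ) (R : Fin n → Fin n → Prop) (u w : Fin n) (A : Set (Fin n → ℝ)),
  (LX (ad R u w)).Nonempty → u ≠ w → MeasurableSet A →
  (mu R).real (A ∩ {v | v u < v w}) =
    (Pr R fun σ => po σ u < po σ w) * (mu (ad R u w)).real A

/-- MOM. Moments. Proof (may assume PSF, MUF): `Ex R (ps (σ p)) = hh R p + 1`. Write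
`v p - v q - (hh p - hh q) = (v p - v q - (po σ p - po σ q)) + (po σ p - hh p) - (po σ q - hh q)` on each
component: the mean of the absolute value of the first summand is at most
`Ex √|po σ p - po σ q| ≤ √(Ex |po σ p - po σ q|)` (Cauchy-Schwarz or concavity). The last inequality is
the triangle inequality. -/
def MomStmt : Prop := ∀ (n : ℕ) (R : Fin n → Fin n → Prop) (p q : Fin n), (LX R).Nonempty →
  (Integrable (fun v : Fin n → ℝ => v p) (mu R) ∧ ∫ v, v p ∂mu R = hh R p + 1) ∧
  (∫ v, |v p - v q - (hh R p - hh R q)| ∂mu R ≤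
    √(Ex R fun σ => |(po σ p : ℝ) - po σ q|) + dv R p + dv R q) ∧
  (Ex R fun σ => |(po σ p : ℝ) - po σ q|) ≤ |hh R p - hh R q| + dv R p + dv R q

/-! ### The cone and log-concavity -/

/-- LWA. The increments in the chamber of the identity. Proof: induction on `n` with
`Pool.Agent.Helper96.GP.peel : PeelStmt` (file Pool/Agent/Helper96/GP/PEEL.lean). For `n = 0` both sides are
the value at the only point. Step: the supremum of `Fin.cons r (r + y)` is `r + ⨆ y` for `0 < r`,
`y ∈ Ch 1` (also for `n = 0`; see Pool/Agent/Helper12/GP/MST.lean), so by PEEL the left side is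
`∫⁻ r in Ioi 0, exp (-r) * ∫⁻ y in Ch 1, Φ (Fin.cons r (r + y)) * exp (-⨆ y)`. On the right side
`En (n+1)` is the image of `ex1.prod (En n)` under `Fin.cons`
(`measurePreserving_piFinSuccAbove (fun _ => ex1) 0`, `lintegral_prod`), and
`ps (Fin.cons r e) = Fin.cons r (r + ps e)`. -/
def LwaStmt : Prop := ∀ (n : ℕ) (Φ : (Fin n → ℝ) → ℝ≥0∞), Measurable Φ →
  ∫⁻ x in Ch (1 : Equiv.Perm (Fin n)), Φ x * ENNReal.ofReal (Real.exp (-⨆ a, x a)) =
    ∫⁻ e, Φ (ps e) ∂En n

/-- LWB. The model is the cone with the weight `exp (-max)`. Proof (may assume LWA): `x ↦ x ∘ σ` preserves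
the volume, maps `Ch 1` onto `Ch σ` and keeps the supremum (see Pool/Agent/Helper42/GP/GAM.lean), so
`∫⁻ e, Φ (cf σ e) = ∫⁻ x in Ch σ, Φ x * w x`. The chambers of the `σ ∈ LX R` are disjoint and cover
`Cn R` up to a null set (see Pool/Agent/Helper83/GP/Cone.lean). Sum over `σ`. -/
def LwbStmt : Prop := ∀ (n : ℕ) (R : Fin n → Fin n → Prop) (Φ : (Fin n → ℝ) → ℝ≥0∞), Measurable Φ →
  (LX R).Nonempty →
  ∫⁻ v, Φ v ∂mu R =
    ((LX R).card : ℝ≥0∞)⁻¹ * ∫⁻ x in Cn R, Φ x * ENNReal.ofReal (Real.exp (-⨆ a, x a))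

/-- LCM. Log-concavity. Proof (may assume LWB): as in Pool/Agent/Helper33/GP/SMO.lean: apply
`Pool.Agent.Helper9.FR.pl_all` to the functions `exp (-⨆ x)` times the indicators of
`A ∩ Cn R ∩ {all x a < T}`, the same for `B`, and for `C`; a convex combination of points of `Cn R`
is in `Cn R`. Let `T → ∞`. (Convexity of `A`, `B` is not needed; openness only for measurability.) -/
def LcmStmt : Prop := ∀ (n : ℕ) (R : Fin n → Fin n → Prop), (LX R).Nonempty →
  ∀ (A B C : Set (Fin n → ℝ)) (t : ℝ), IsOpen A → IsOpen B → IsOpen C → Convex ℝ A →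
    Convex ℝ B → 0 < t → t < 1 → (∀ u ∈ A, ∀ v ∈ B, (1 - t) • u + t • v ∈ C) →
    ((mu R).real A) ^ (1 - t) * ((mu R).real B) ^ t ≤ (mu R).real C

/-! ### The filling -/

/-- FLA. The order statistics fill the line. Proof (may assume ENF, PSF): let `G` vanish outside `[-K, K]`,
`|G| ≤ B` (`B, K ≥ 1`). It suffices to bound, for `S` large, the mean of
`|(∑ j, G ((ps e j - ps e k) / S)) / S - ∫ G|` restricted to an event of probability near `1`. Let
`L = ⌈2 K S⌉`; `S ≥ 3 K + 3` gives `L ≤ S² - 1`, so the positions `k - L, ..., k + L` exist. By PSF and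
Chebyshev `(ps e (k+L) - ps e k) / S > K` and `(ps e (k-L) - ps e k) / S < -K` with probability at least
`1 - 2 L / (L - K S)²  → 1`; on this event (and if all increments are positive) the sum is over
`|j - k| ≤ L` only. For these `j` the mean of `((ps e j - ps e k) - (j - k))² / S²` is at most
`L / S²`, so with a modulus of continuity (`|G y - G z| ≤ ε' ` if `|y - z| ≤ δ`) the mean of
`|G ((ps e j - ps e k) / S) - G ((j - k) / S)|` is at most `ε' + 2 B L / (S² δ²)`; the sum of the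
`2 L + 1` terms divided by `S` is at most `(2 L + 1)/S * (ε' + 2 B L / (S² δ²))`, small for `S` large.
At last `(∑ |i| ≤ L, G (i / S)) / S → ∫ G` (Riemann sums of a uniformly continuous function with
support in `[-K, K]`: compare on each `[i/S, (i+1)/S]`). Markov. -/
def FlaStmt : Prop := ∀ G : ℝ → ℝ, Continuous G → HasCompactSupport G → ∀ ε : ℝ, 0 < ε →
  ∃ S0 : ℝ, ∀ S : ℝ, S0 ≤ S → ∀ (n : ℕ) (k : Fin n), S ^ 2 ≤ (k : ℕ) → S ^ 2 + (k : ℕ) + 1 ≤ n →
    (En n).real {e | ε < |(∑ j, G ((ps e j - ps e k) / S)) / S - ∫ y, G y|} ≤ ε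

/-- FLB. The filling of the model. Proof (may assume MUF, FLA): for `v = cf σ e` the sum over `p` is the
sum over the positions `j = σ p` (`Equiv.sum_comp`), with `k = σ x`; the event is measurable; average
FLA over `σ` by MUF. -/
def FlbStmt : Prop := ∀ G : ℝ → ℝ, Continuous G → HasCompactSupport G → ∀ ε : ℝ, 0 < ε →
  ∃ S0 : ℝ, ∀ S : ℝ, S0 ≤ S → ∀ (n : ℕ) (R : Fin n → Fin n → Prop) (x : Fin n), (LX R).Nonempty →
    (∀ σ ∈ LX R, S ^ 2 ≤ (po σ x : ℝ) ∧ S ^ 2 + po σ x + 1 ≤ n) →
    (mu R).real {v | ε < |(∑ p, G (nm x S v p)) / S - ∫ y, G y|} ≤ ε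

/-! ### Facts on the positions -/

/-- CNX. Few elements have their mean in a given interval. Proof: let `T` be the set of these `p`,
`K` its cardinality. For `p ∈ T`, `Pr (|po p - hh p| ≤ 4 S) ≥ 3/4` by Markov. So
`3/4 K ≤ Ex #{p ∈ T | |po p - hh p| ≤ 4 S}`, and this number is at most the number of integers in
`[s - 4 S, s + 5 S]`, which is at most `9 S + 1 ≤ 10 S` (the positions of different elements are
different). `40/3 ≤ 15`. -/
def CnxStmt : Prop := ∀ (n : ℕ) (R : Fin n → Fin n → Prop) (S : ℝ), (LX R).Nonempty → 1 ≤ S →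
  (∀ p, dv R p ≤ S) → ∀ s : ℝ,
  (Fintype.card {p : Fin n // s ≤ hh R p ∧ hh R p < s + S} : ℝ) ≤ 15 * S

/-- ENX. The energy. Proof: `po σ x = ∑ q, 1[po σ q < po σ x]`, so `hh R x = ∑ q, π q` with
`π q = Pr (po q < po x)`, and `|po σ x - hh R x| ≤ ∑ q, |1[po σ q < po σ x] - π q|`; the mean of
`|1_E - P(E)|` is `2 P(E) (1 - P(E))`. -/
def EnxStmt : Prop := ∀ (n : ℕ) (R : Fin n → Fin n → Prop) (x : Fin n), (LX R).Nonempty →
  dv R x ≤ 2 * ∑ q, (Pr R fun σ => po σ q < po σ x) * (1 - Pr R fun σ => po σ q < po σ x)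

/-! ### The systems -/

/-- KSY. One system. Proof (may assume ENF, MUF, ORD, MOM, LCM, CNX, ENX): take `μ = (mu R).map (nm x S)`,
`S = dv R x`. `∫ e p = (hh p - hh x) / S` by MOM. `ref`: `nm x S v x = 0`. `noties`: ORD.
`lc`: `nm x S` is linear and continuous, so the preimages of open convex sets are open and convex, and
the third contains the combinations; LCM. `m1`, `m2`: by MOM
`E |V p - V x - (hh p - hh x)| / S ≤ √(|hh p - hh x| + 2 S) / S + 2 = √((|a| + 2) / S) + 2` with
`a = (hh p - hh x) / S`; for `|a| ≤ S` this is at most `2 + √3 ≤ 4`, and always at most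
`2 + √(|a| + 2) ≤ 4 + √|a|`. `cnt`: CNX with `s = hh x + u S`. `energy`, `nobal`: ENX and ORD
(`{d | d q < d x}` pulls back to `{v | v q < v x}`). The last equality: `map_measureReal_apply`, the
event is measurable (finite sum of continuous functions). -/
def KsyStmt : Prop := ∀ (c : ℝ) (n : ℕ) (R : Fin n → Fin n → Prop) (x : Fin n), (LX R).Nonempty →
  1 ≤ dv R x → (∀ p, dv R p ≤ dv R x) →
  (∀ p q, p ≠ q → c < |(Pr R fun σ => po σ p < po σ q) - 1 / 2|) →
  ∃ Z : KSys c, Z.S = dv R x ∧ ∀ (G : ℝ → ℝ) (ε : ℝ), Continuous G →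
    Z.μ.real {d | ε < |(∑ p, G (d p)) / Z.S - ∫ y, G y|} =
      (mu R).real {v | ε < |(∑ p, G (nm x (dv R x) v p)) / dv R x - ∫ y, G y|}

/-- SYS. The sequence of systems. Proof (may assume KSY, FLB): for `N : ℕ` take the data for
`S0 = N + 1` and the system `Z N` of KSY. `(Z N).S ≥ N + 1`. Filling: for `G` and `ε` the measure in
question pulls back to the event of FLB (the event is measurable: finite sum of continuous functions);
for every `ε' ≤ ε` it is at most the measure of the event for `ε'`, which is at most `ε'` if `N` is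
large. -/
def SysStmt : Prop := ∀ c : ℝ, 0 < c →
  (∀ S0 : ℝ, ∃ (n : ℕ) (R : Fin n → Fin n → Prop) (x : Fin n), (LX R).Nonempty ∧
    S0 ≤ dv R x ∧ (∀ p, dv R p ≤ dv R x) ∧
    (∀ σ ∈ LX R, (dv R x) ^ 2 ≤ (po σ x : ℝ) ∧ (dv R x) ^ 2 + po σ x + 1 ≤ n) ∧
    ∀ p q, p ≠ q → c < |(Pr R fun σ => po σ p < po σ q) - 1 / 2|) →
  ∃ Z : ℕ → KSys c, Tendsto (fun N => (Z N).S) atTop atTop ∧ Filling Z

end

end Pool.Agent.Helper89.KS
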