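import Pool.Agent.Helper42.KS.Goals

/-!
# Packet PR for MP_40ec72_an (helper42): counting tuples with few non-resonant coordinates
-/

set_option autoImplicit false

namespace Pool.Agent.Helper42.KS.PkPR

open Finset

/-- the sum in `res` is affine in the entry `y i₀.succ` -/
theorem sum_shift {l d : ℕ} (α : Fin l → ℝ) (i₀ : Fin l) (y : Fin (l + 1) → Fin d → ℤ)
    (ν : Fin d) :
    ∑ i : Fin l, α i * ((y i.succ ν - y 0 ν : ℤ) : ℝ) =
      α i₀ * (y i₀.succ ν : ℝ) + ∑ i : Fin l, α i *
        (((Function.update y i₀.succ 0) i.succ ν - (Function.update y i₀.succ 0) 0 ν : ℤ) : ℝ) := by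
  have h0 : (Function.update y i₀.succ 0) 0 = y 0 :=
    Function.update_of_ne (Fin.succ_ne_zero i₀).symm _ _
  rw [h0]
  rw [← Finset.add_sum_erase _ _ (Finset.mem_univ i₀),
    ← Finset.add_sum_erase (Finset.univ : Finset (Fin l))
      (fun i => α i * (((Function.update y i₀.succ 0) i.succ ν - y 0 ν : ℤ) : ℝ))
      (Finset.mem_univ i₀)]
  have h1 : ∀ i ∈ (Finset.univ : Finset (Fin l)).erase i₀,
      α i * (((Function.update y i₀.succ 0) i.succ ν - y 0 ν : ℤ) : ℝ) =
        α i * ((y i.succ ν - y 0 ν : ℤ) : ℝ) := by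
    intro i hi
    have hne : i.succ ≠ i₀.succ := fun h => (Finset.ne_of_mem_erase hi) (Fin.succ_injective _ h)
    rw [Function.update_of_ne hne]
  rw [Finset.sum_congr rfl h1]
  simp only [Function.update_self]
  push_cast
  simp only [Pi.zero_apply, Int.cast_zero]
  ring

open Classical in
/-- the resonant values of one coordinate -/
noncomputable def AA' (k R : ℕ) (s : ℝ) (a c : ℝ) : Finset ℤ :=
  (Finset.Ico (-(R : ℤ)) R).filter (fun w => ∃ q : ℕ, 1 ≤ q ∧ (q : ℝ) ≤ (R : ℝ) ^ s ∧
    near (k * q * a * w + k * q * c) ((R : ℝ) ^ (-((k : ℝ) - 1) + s)))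

theorem card_AA' (k R : ℕ) (s t : ℝ) (a c : ℝ) (hR : 1 ≤ R)
    (hr : ¬ rich k R s t a) : ((AA' k R s a c).card : ℝ) ≤ (R : ℝ) ^ (s + 1 - t) := by
  classical
  have hR0 : (0 : ℝ) < R := by exact_mod_cast hR
  have hsub : AA' k R s a c ⊆ (Finset.Icc 1 ⌊(R : ℝ) ^ s⌋₊).biUnion (fun q =>
      (Finset.Ico (-(R : ℤ)) R).filter
        (fun y : ℤ => near (k * q * a * y + k * q * c) ((R : ℝ) ^ (-((k : ℝ) - 1) + s)))) := by
    intro w hw
    unfold AA' at hw
    rw [Finset.mem_filter] at hw
    obtain ⟨hw1, q, hq1, hq2, hq3⟩ := hw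
    rw [Finset.mem_biUnion]
    exact ⟨q, Finset.mem_Icc.mpr ⟨hq1, Nat.le_floor hq2⟩, Finset.mem_filter.mpr ⟨hw1, hq3⟩⟩
  have h1 : ((AA' k R s a c).card : ℝ) ≤ ∑ q ∈ Finset.Icc 1 ⌊(R : ℝ) ^ s⌋₊,
      (((Finset.Ico (-(R : ℤ)) R).filter
        (fun y : ℤ => near (k * q * a * y + k * q * c)
          ((R : ℝ) ^ (-((k : ℝ) - 1) + s)))).card : ℝ) := by
    have := (Finset.card_le_card hsub).trans Finset.card_biUnion_le
    exact_mod_cast this
  have h2 : ∀ q ∈ Finset.Icc 1 ⌊(R : ℝ) ^ s⌋₊,
      (((Finset.Ico (-(R : ℤ)) R).filter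
        (fun y : ℤ => near (k * q * a * y + k * q * c)
          ((R : ℝ) ^ (-((k : ℝ) - 1) + s)))).card : ℝ) ≤ (R : ℝ) ^ (1 - t) := by
    intro q hq
    rw [Finset.mem_Icc] at hq
    by_contra hcon
    push Not at hcon
    apply hr
    refine ⟨q, hq.1, (Nat.le_floor_iff (by positivity)).mp hq.2, k * q * c, ?_⟩
    convert hcon
  calc ((AA' k R s a c).card : ℝ) ≤ _ := h1
    _ ≤ ∑ q ∈ Finset.Icc 1 ⌊(R : ℝ) ^ s⌋₊, (R : ℝ) ^ (1 - t) := Finset.sum_le_sum h2
    _ = (⌊(R : ℝ) ^ s⌋₊ : ℝ) * (R : ℝ) ^ (1 - t) := by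
        rw [Finset.sum_const, Nat.card_Icc]; simp
    _ ≤ (R : ℝ) ^ s * (R : ℝ) ^ (1 - t) := by
        apply mul_le_mul_of_nonneg_right (Nat.floor_le (by positivity)) (by positivity)
    _ = (R : ℝ) ^ (s + 1 - t) := by
        rw [← Real.rpow_add hR0]; congr 1; ring

/-- the fibre bound -/
theorem fibre_bound (R d : ℕ) (S : ℕ) (M : ℝ) (hR : 1 ≤ R) (hM : 1 ≤ M)
    (A : Fin d → Finset ℤ) (hA : ∀ ν, ((A ν).card : ℝ) ≤ M) (W : Finset (Fin d → ℤ))
    (hW : ∀ w ∈ W, ∃ T : Finset (Fin d), T.card < S ∧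
      w ∈ Fintype.piFinset (fun ν => if ν ∈ T then Finset.Ico (-(R : ℤ)) R else A ν)) :
    (W.card : ℝ) ≤ 2 ^ d * (2 * R : ℝ) ^ S * M ^ d := by
  classical
  have hR1 : (1 : ℝ) ≤ R := by exact_mod_cast hR
  have hsub : W ⊆ ((Finset.univ : Finset (Finset (Fin d))).filter (fun T => T.card < S)).biUnion
      (fun T => Fintype.piFinset (fun ν => if ν ∈ T then Finset.Ico (-(R : ℤ)) R else A ν)) := by
    intro w hw
    obtain ⟨T, hT1, hT2⟩ := hW w hw
    rw [Finset.mem_biUnion]
    exact ⟨T, Finset.mem_filter.mpr ⟨Finset.mem_univ _, hT1⟩, hT2⟩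
  have h1 : (W.card : ℝ) ≤
      ∑ T ∈ (Finset.univ : Finset (Finset (Fin d))).filter (fun T => T.card < S),
        ((Fintype.piFinset (fun ν => if ν ∈ T then Finset.Ico (-(R : ℤ)) R else A ν)).card : ℝ) := by
    have := (Finset.card_le_card hsub).trans Finset.card_biUnion_le
    exact_mod_cast this
  have h2 : ∀ T ∈ (Finset.univ : Finset (Finset (Fin d))).filter (fun T => T.card < S),
      ((Fintype.piFinset (fun ν => if ν ∈ T then Finset.Ico (-(R : ℤ)) R else A ν)).card : ℝ) ≤
        (2 * R : ℝ) ^ S * M ^ d := by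
    intro T hT
    rw [Finset.mem_filter] at hT
    rw [Fintype.card_piFinset, Nat.cast_prod]
    calc ∏ ν, (((if ν ∈ T then Finset.Ico (-(R : ℤ)) R else A ν).card : ℕ) : ℝ)
        ≤ ∏ ν : Fin d, ((if ν ∈ T then (2 * R : ℝ) else 1) * M) := by
          apply Finset.prod_le_prod
          · intro i _; positivity
          · intro i _
            by_cases hi : i ∈ T
            · simp only [hi, if_true, Int.card_Ico]
              have : (((R : ℤ) - -(R : ℤ)).toNat : ℝ) = 2 * R := by
                have : ((R : ℤ) - -(R : ℤ)).toNat = 2 * R := by omega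
                rw [this]; push_cast; ring
              rw [this]
              nlinarith
            · simp only [hi, if_false, one_mul]
              exact hA i
      _ = (2 * R : ℝ) ^ T.card * M ^ d := by
          rw [Finset.prod_mul_distrib, Finset.prod_const, Finset.card_univ, Fintype.card_fin,
            Finset.prod_ite_mem, Finset.univ_inter, Finset.prod_const]
      _ ≤ (2 * R : ℝ) ^ S * M ^ d := by
          apply mul_le_mul_of_nonneg_right _ (by positivity)
          exact pow_le_pow_right₀ (by linarith) hT.2.le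
  calc (W.card : ℝ) ≤ _ := h1
    _ ≤ ∑ T ∈ (Finset.univ : Finset (Finset (Fin d))).filter (fun T => T.card < S),
        (2 * R : ℝ) ^ S * M ^ d := Finset.sum_le_sum h2
    _ = ((((Finset.univ : Finset (Finset (Fin d))).filter (fun T => T.card < S)).card : ℕ) : ℝ) *
        ((2 * R : ℝ) ^ S * M ^ d) := by rw [Finset.sum_const, nsmul_eq_mul]
    _ ≤ (2 : ℝ) ^ d * ((2 * R : ℝ) ^ S * M ^ d) := by
        apply mul_le_mul_of_nonneg_right _ (by positivity)
        have h3 : ((Finset.univ : Finset (Finset (Fin d))).filter (fun T => T.card < S)).card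
            ≤ 2 ^ d := by
          refine (Finset.card_filter_le _ _).trans ?_
          rw [Finset.card_univ, Fintype.card_finset, Fintype.card_fin]
        exact_mod_cast h3
    _ = 2 ^ d * (2 * R : ℝ) ^ S * M ^ d := by ring

theorem thm : G_PR := by
  classical
  intro k R l d E s t α i₀ S hR hs ht hE hr
  have hR0 : (0 : ℝ) < R := by exact_mod_cast hR
  have hR1 : (1 : ℝ) ≤ R := by exact_mod_cast hR
  set M : ℝ := (R : ℝ) ^ (s + 1 - t) with hM
  have hM1 : 1 ≤ M := Real.one_le_rpow hR1 (by linarith)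
  set F : Finset (Fin (l + 1) → Fin d → ℤ) := (Fintype.piFinset (fun _ : Fin (l + 1) => E)).filter
      (fun y => (Finset.univ.filter (fun ν : Fin d => ¬ res k R l s y α ν)).card < S) with hF
  set Z : Finset (Fin (l + 1) → Fin d → ℤ) :=
    Fintype.piFinset (Function.update (fun _ : Fin (l + 1) => E) i₀.succ {0}) with hZ
  have hZc : Z.card = E.card ^ l := by
    rw [hZ, Fintype.card_piFinset]
    rw [← Finset.mul_prod_erase _ _ (Finset.mem_univ i₀.succ), Function.update_self,
      Finset.card_singleton, one_mul]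
    rw [Finset.prod_congr rfl (g := fun _ => E.card)]
    · rw [Finset.prod_const, Finset.card_erase_of_mem (Finset.mem_univ _), Finset.card_univ,
        Fintype.card_fin]
      simp
    · intro i hi
      rw [Function.update_of_ne (Finset.ne_of_mem_erase hi)]
  have hmap : ∀ y ∈ F, Function.update y i₀.succ 0 ∈ Z := by
    intro y hy
    rw [hF, Finset.mem_filter, Fintype.mem_piFinset] at hy
    rw [hZ, Fintype.mem_piFinset]
    intro j
    by_cases hj : j = i₀.succ
    · subst hj
      rw [Function.update_self, Function.update_self]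
      exact Finset.mem_singleton_self _
    · rw [Function.update_of_ne hj, Function.update_of_ne hj]
      exact hy.1 j
  have hfib : ∀ z ∈ Z, (((F.filter (fun y => Function.update y i₀.succ 0 = z)).card : ℕ) : ℝ) ≤
      2 ^ d * (2 * R : ℝ) ^ S * M ^ d := by
    intro z _
    have hinj : Set.InjOn (fun y : Fin (l + 1) → Fin d → ℤ => y i₀.succ)
        (F.filter (fun y => Function.update y i₀.succ 0 = z)) := by
      intro y hy y' hy' hyy
      simp only [Finset.coe_filter, Set.mem_ofPred_eq] at hy hy'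
      funext j
      by_cases hj : j = i₀.succ
      · subst hj; exact hyy
      · have h1 : Function.update y i₀.succ 0 j = Function.update y' i₀.succ 0 j := by
          rw [hy.2, hy'.2]
        rwa [Function.update_of_ne hj, Function.update_of_ne hj] at h1
    rw [← Finset.card_image_of_injOn hinj]
    apply fibre_bound R d S M hR hM1
      (fun ν => AA' k R s (α i₀) (∑ i : Fin l, α i * ((z i.succ ν - z 0 ν : ℤ) : ℝ)))
      (fun ν => card_AA' k R s t (α i₀) _ hR hr)
    intro w hw
    rw [Finset.mem_image] at hw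
    obtain ⟨y, hy, rfl⟩ := hw
    rw [Finset.mem_filter] at hy
    obtain ⟨hyF, hyz⟩ := hy
    rw [hF, Finset.mem_filter, Fintype.mem_piFinset] at hyF
    refine ⟨Finset.univ.filter (fun ν : Fin d => ¬ res k R l s y α ν), hyF.2, ?_⟩
    rw [Fintype.mem_piFinset]
    intro ν
    have hbox : y i₀.succ ν ∈ Finset.Ico (-(R : ℤ)) R := by
      have := hE (hyF.1 i₀.succ)
      unfold sbox at this
      rw [Fintype.mem_piFinset] at this
      exact this ν
    by_cases hν : res k R l s y α ν
    · have hn : ν ∉ Finset.univ.filter (fun ν : Fin d => ¬ res k R l s y α ν) := by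
        simp [hν]
      rw [if_neg hn]
      unfold AA'
      rw [Finset.mem_filter]
      refine ⟨hbox, ?_⟩
      obtain ⟨q, hq1, hq2, hq3⟩ := hν
      refine ⟨q, hq1, hq2, ?_⟩
      rw [sum_shift α i₀ y ν, hyz] at hq3
      have he : (k : ℝ) * q * α i₀ * (y i₀.succ ν : ℝ) + k * q *
          (∑ i : Fin l, α i * ((z i.succ ν - z 0 ν : ℤ) : ℝ)) =
          k * q * (α i₀ * (y i₀.succ ν : ℝ) +
            ∑ i : Fin l, α i * ((z i.succ ν - z 0 ν : ℤ) : ℝ)) := by ring
      rw [he]
      exact hq3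
    · have hn : ν ∈ Finset.univ.filter (fun ν : Fin d => ¬ res k R l s y α ν) := by
        simp [hν]
      rw [if_pos hn]
      exact hbox
  have hcard : F.card = ∑ z ∈ Z, (F.filter (fun y => Function.update y i₀.succ 0 = z)).card :=
    Finset.card_eq_sum_card_fiberwise hmap
  have hfinal : (F.card : ℝ) ≤ (E.card : ℝ) ^ l * (2 ^ d * (2 * R : ℝ) ^ S * M ^ d) := by
    rw [hcard, Nat.cast_sum]
    refine (Finset.sum_le_sum hfib).trans ?_
    rw [Finset.sum_const, nsmul_eq_mul, hZc]
    push_cast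
    exact le_refl _
  calc (F.card : ℝ) ≤ _ := hfinal
    _ = _ := by ring

end Pool.Agent.Helper42.KS.PkPR
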